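import Mathlib

/-!
# Partially `p`-periodic polynomial sequences on a quadric need not extend

For `d = s = 3` and every prime `p ≥ 5` the extension property fails for the quadric `x y = z²`.

The group is `G = ℝ² × ℝ² × ℝ` with `(a,b,c)(a',b',c') = (a+a', b+b', c+c'+a·b')`, `Γ` is the set of
integer points, and `G_0 = G_1 = G`, `G_2 = {b = 0}`, `G_3 = {a = b = 0}`, `G_4 = 1`. The sequence
`f(n) = ((3yz/p, 3xz/p), (x/p, y/p), (3xyz - z³)/p²)` is partially `p`-periodic on the quadric.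

Let `f' = (a', b', c')` be a `p`-periodic polynomial sequence which agrees with `f` modulo `Γ` on the
quadric, `S` the (constant) mixed second difference of `a'` and `L` the linear part of `b'`. The
mixed third difference of `c'` is symmetric and trilinear, which gives
`S(x,y) · pL(z) ≡ S(x,z) · pL(y)` modulo `1`. The values of `b'` on the quadric and this congruence
show that the first coordinate of `S(e_y, e_z)` is an integer. The values of `a'` at the points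
`(1,1,±1)` and `(1,4,±2)` of the quadric show that `12` times this coordinate is `36/p` modulo `1`.
-/

set_option autoImplicit false

open scoped Manifold ContDiff

namespace Pool.Agent.Results.MP_7624a3_nt.NoExtension

/-! ## The definitions of the question -/

section Defs

variable {G : Type*} [Group G] {d : ℕ}

/-- `Δ_h f(n) = f(n+h) f(n)⁻¹`. -/
def delta (h : Fin d → ℤ) (f : (Fin d → ℤ) → G) : (Fin d → ℤ) → G :=
  fun n => f (n + h) * (f n)⁻¹

/-- `f` is a polynomial sequence for the filtration `F`: for all `m ≥ 0` and all `h_1, ..., h_m`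
(the members of the list `hs`), `Δ_{h_m} ... Δ_{h_1} f` takes values in `F m`. -/
def IsPolySeq (F : ℕ → Subgroup G) (f : (Fin d → ℤ) → G) : Prop :=
  ∀ (hs : List (Fin d → ℤ)) (n : Fin d → ℤ), hs.foldr delta f n ∈ F hs.length

/-- The map `τ : F_p^d → ℤ^d` which takes each coordinate to its representative in
`{0, ..., p-1}`. -/
def tau {p : ℕ} (n : Fin d → ZMod p) : Fin d → ℤ := fun i => ((n i).val : ℤ)

/-- The set `poly_p(Ω → G_ℕ | Γ)`: all `f ∘ τ` with `f` a polynomial sequence such that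
`f(n + p m)⁻¹ f(n) ∈ Γ` for all `n ∈ τ(Ω) + p ℤ^d` and `m ∈ ℤ^d`. -/
def polyP (p : ℕ) (Ω : Set (Fin d → ZMod p)) (F : ℕ → Subgroup G) (Γ : Subgroup G) :
    Set ((Fin d → ZMod p) → G) :=
  {g | ∃ f : (Fin d → ℤ) → G, IsPolySeq F f ∧
    (∀ x ∈ Ω, ∀ k m : Fin d → ℤ,
      (f (tau x + (p : ℤ) • k + (p : ℤ) • m))⁻¹ * f (tau x + (p : ℤ) • k) ∈ Γ) ∧
    g = f ∘ tau}

/-- The zero set `V(M)` of the quadratic form `M(n) = (n A) · n + n · u + v`. -/
def zeroSet {p : ℕ} (A : Matrix (Fin d) (Fin d) (ZMod p)) (u : Fin d → ZMod p) (v : ZMod p) :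
    Set (Fin d → ZMod p) :=
  {n | dotProduct (Matrix.vecMul n A) n + dotProduct n u + v = 0}

end Defs

/-- `G/Γ` with the filtration `F` is an `s`-step filtered nilmanifold: `G` is a connected, simply
connected nilpotent Lie group, `Γ` is a discrete cocompact subgroup, and `F` is a filtration by
closed connected subgroups rational for `Γ` with `G = F 0 = F 1 ⊇ F 2 ⊇ ...`,
`[F i, F j] ≤ F (i + j)` and `F (s + 1) = {1}`. A subgroup `H` is rational for `Γ` when `Γ ∩ H` is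
cocompact in `H`. -/
structure IsFilteredNilmanifold (s : ℕ) {G : Type*} [Group G] [TopologicalSpace G]
    (Γ : Subgroup G) (F : ℕ → Subgroup G) : Prop where
  t2 : T2Space G
  secondCountable : SecondCountableTopology G
  connected : ConnectedSpace G
  simplyConnected : SimplyConnectedSpace G
  nilpotent : Group.IsNilpotent G
  discrete : DiscreteTopology Γ
  cocompact : CompactSpace (G ⧸ Γ)
  zero : F 0 = ⊤
  one : F 1 = ⊤
  anti : Antitone F
  comm : ∀ i j, ⁅F i, F j⁆ ≤ F (i + j)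
  last : F (s + 1) = ⊥
  closed : ∀ i, IsClosed (F i : Set G)
  conn : ∀ i, IsConnected (F i : Set G)
  rational : ∀ i, CompactSpace (F i ⧸ Γ.subgroupOf (F i))

/-- The extension property for `d`, `s` and the prime `p`: for every quadratic form `M` on `F_p^d`
of rank at least `3`, every `s`-step filtered nilmanifold `G/Γ` and every
`g ∈ poly_p(V(M) → G_ℕ | Γ)` there is `g' ∈ poly_p(F_p^d → G_ℕ | Γ)` with `g(n) Γ = g'(n) Γ` for
all `n ∈ V(M)`. -/
def ExtensionProperty (d s p : ℕ) : Prop :=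
  ∀ (A : Matrix (Fin d) (Fin d) (ZMod p)) (u : Fin d → ZMod p) (v : ZMod p),
    A.IsSymm → 3 ≤ A.rank →
    ∀ (E G : Type) [NormedAddCommGroup E] [NormedSpace ℝ E] [FiniteDimensional ℝ E]
      [TopologicalSpace G] [ChartedSpace E G] [Group G] [LieGroup 𝓘(ℝ, E) ω G]
      (Γ : Subgroup G) (F : ℕ → Subgroup G), IsFilteredNilmanifold s Γ F →
    ∀ g ∈ polyP p (zeroSet A u v) F Γ, ∃ g' ∈ polyP p (Set.univ : Set (Fin d → ZMod p)) F Γ,
      ∀ n ∈ zeroSet A u v, (g n : G ⧸ Γ) = (g' n : G ⧸ Γ)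

/-! ## The group -/

/-- The underlying vector space of the group. -/
abbrev V5 : Type := ℝ × ℝ × ℝ × ℝ × ℝ

/-- The group `ℝ² × ℝ² × ℝ` with `(a,b,c)(a',b',c') = (a+a', b+b', c+c'+a·b')`. -/
def Heis : Type := V5

namespace Heis

/-- The element with the given coordinates. -/
def mk (a₁ a₂ b₁ b₂ c : ℝ) : Heis := ((a₁, a₂, b₁, b₂, c) : V5)

/-- First coordinate of `a`. -/
def a₁ (g : Heis) : ℝ := (show V5 from g).1
/-- Second coordinate of `a`. -/
def a₂ (g : Heis) : ℝ := (show V5 from g).2.1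
/-- First coordinate of `b`. -/
def b₁ (g : Heis) : ℝ := (show V5 from g).2.2.1
/-- Second coordinate of `b`. -/
def b₂ (g : Heis) : ℝ := (show V5 from g).2.2.2.1
/-- The coordinate `c`. -/
def c (g : Heis) : ℝ := (show V5 from g).2.2.2.2

@[simp] theorem mk_a₁ (x y z w t : ℝ) : (mk x y z w t).a₁ = x := rfl
@[simp] theorem mk_a₂ (x y z w t : ℝ) : (mk x y z w t).a₂ = y := rfl
@[simp] theorem mk_b₁ (x y z w t : ℝ) : (mk x y z w t).b₁ = z := rfl
@[simp] theorem mk_b₂ (x y z w t : ℝ) : (mk x y z w t).b₂ = w := rfl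
@[simp] theorem mk_c (x y z w t : ℝ) : (mk x y z w t).c = t := rfl

theorem ext' {g h : Heis} (h1 : g.a₁ = h.a₁) (h2 : g.a₂ = h.a₂) (h3 : g.b₁ = h.b₁)
    (h4 : g.b₂ = h.b₂) (h5 : g.c = h.c) : g = h :=
  Prod.ext h1 (Prod.ext h2 (Prod.ext h3 (Prod.ext h4 h5)))

instance : Mul Heis := ⟨fun g h => mk (g.a₁ + h.a₁) (g.a₂ + h.a₂) (g.b₁ + h.b₁) (g.b₂ + h.b₂)
  (g.c + h.c + (g.a₁ * h.b₁ + g.a₂ * h.b₂))⟩
instance : One Heis := ⟨mk 0 0 0 0 0⟩
instance : Inv Heis := ⟨fun g => mk (-g.a₁) (-g.a₂) (-g.b₁) (-g.b₂)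
  (-g.c + (g.a₁ * g.b₁ + g.a₂ * g.b₂))⟩

@[simp] theorem mul_a₁ (g h : Heis) : (g * h).a₁ = g.a₁ + h.a₁ := rfl
@[simp] theorem mul_a₂ (g h : Heis) : (g * h).a₂ = g.a₂ + h.a₂ := rfl
@[simp] theorem mul_b₁ (g h : Heis) : (g * h).b₁ = g.b₁ + h.b₁ := rfl
@[simp] theorem mul_b₂ (g h : Heis) : (g * h).b₂ = g.b₂ + h.b₂ := rfl
@[simp] theorem mul_c (g h : Heis) :
    (g * h).c = g.c + h.c + (g.a₁ * h.b₁ + g.a₂ * h.b₂) := rfl
@[simp] theorem one_a₁ : (1 : Heis).a₁ = 0 := rfl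
@[simp] theorem one_a₂ : (1 : Heis).a₂ = 0 := rfl
@[simp] theorem one_b₁ : (1 : Heis).b₁ = 0 := rfl
@[simp] theorem one_b₂ : (1 : Heis).b₂ = 0 := rfl
@[simp] theorem one_c : (1 : Heis).c = 0 := rfl
@[simp] theorem inv_a₁ (g : Heis) : (g⁻¹).a₁ = -g.a₁ := rfl
@[simp] theorem inv_a₂ (g : Heis) : (g⁻¹).a₂ = -g.a₂ := rfl
@[simp] theorem inv_b₁ (g : Heis) : (g⁻¹).b₁ = -g.b₁ := rfl
@[simp] theorem inv_b₂ (g : Heis) : (g⁻¹).b₂ = -g.b₂ := rfl
@[simp] theorem inv_c (g : Heis) :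
    (g⁻¹).c = -g.c + (g.a₁ * g.b₁ + g.a₂ * g.b₂) := rfl

instance : Group Heis :=
  Group.ofLeftAxioms
    (by
      intro g h k
      refine ext' ?_ ?_ ?_ ?_ ?_ <;> simp only [mul_a₁, mul_a₂, mul_b₁, mul_b₂, mul_c] <;> ring)
    (by
      intro g
      refine ext' ?_ ?_ ?_ ?_ ?_ <;> simp)
    (by
      intro g
      refine ext' ?_ ?_ ?_ ?_ ?_ <;>
        simp only [mul_a₁, mul_a₂, mul_b₁, mul_b₂, mul_c, inv_a₁, inv_a₂, inv_b₁, inv_b₂, inv_c,
          one_a₁, one_a₂, one_b₁, one_b₂, one_c] <;> ring)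

instance : TopologicalSpace Heis := inferInstanceAs (TopologicalSpace V5)
instance : ChartedSpace V5 Heis := inferInstanceAs (ChartedSpace V5 V5)
instance : T2Space Heis := inferInstanceAs (T2Space V5)
instance : SecondCountableTopology Heis := inferInstanceAs (SecondCountableTopology V5)

theorem contDiff_mulV : ContDiff ℝ ω (fun q : V5 × V5 =>
    ((q.1.1 + q.2.1, q.1.2.1 + q.2.2.1, q.1.2.2.1 + q.2.2.2.1, q.1.2.2.2.1 + q.2.2.2.2.1,
      q.1.2.2.2.2 + q.2.2.2.2.2 + (q.1.1 * q.2.2.2.1 + q.1.2.1 * q.2.2.2.2.1)) : V5)) := by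
  fun_prop

theorem contDiff_invV : ContDiff ℝ ω (fun q : V5 =>
    ((-q.1, -q.2.1, -q.2.2.1, -q.2.2.2.1,
      -q.2.2.2.2 + (q.1 * q.2.2.1 + q.2.1 * q.2.2.2.1)) : V5)) := by
  fun_prop

instance : IsManifold 𝓘(ℝ, V5) ω Heis := inferInstanceAs (IsManifold 𝓘(ℝ, V5) ω V5)

instance : LieGroup 𝓘(ℝ, V5) ω Heis where
  contMDiff_mul := by
    have h : ContMDiff (𝓘(ℝ, V5).prod 𝓘(ℝ, V5)) 𝓘(ℝ, V5) ω (fun q : V5 × V5 =>
      ((q.1.1 + q.2.1, q.1.2.1 + q.2.2.1, q.1.2.2.1 + q.2.2.2.1, q.1.2.2.2.1 + q.2.2.2.2.1,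
      q.1.2.2.2.2 + q.2.2.2.2.2 + (q.1.1 * q.2.2.2.1 + q.1.2.1 * q.2.2.2.2.1)) : V5)) := by
      rw [← modelWithCornersSelf_prod, chartedSpaceSelf_prod]
      exact contDiff_mulV.contMDiff
    exact h
  contMDiff_inv := contDiff_invV.contMDiff

instance : IsTopologicalGroup Heis := topologicalGroup_of_lieGroup 𝓘(ℝ, V5) ω

theorem continuous_a₁ : Continuous a₁ := (continuous_fst : Continuous fun q : V5 => q.1)
theorem continuous_a₂ : Continuous a₂ :=
  (continuous_fst.comp continuous_snd : Continuous fun q : V5 => q.2.1)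
theorem continuous_b₁ : Continuous b₁ :=
  (continuous_fst.comp (continuous_snd.comp continuous_snd) : Continuous fun q : V5 => q.2.2.1)
theorem continuous_b₂ : Continuous b₂ :=
  (by fun_prop : Continuous fun q : V5 => q.2.2.2.1)
theorem continuous_c : Continuous c :=
  (by fun_prop : Continuous fun q : V5 => q.2.2.2.2)

/-- The lattice of integer points. -/
def lattice : Subgroup Heis where
  carrier := {g | (∃ n : ℤ, g.a₁ = n) ∧ (∃ n : ℤ, g.a₂ = n) ∧ (∃ n : ℤ, g.b₁ = n) ∧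
    (∃ n : ℤ, g.b₂ = n) ∧ ∃ n : ℤ, g.c = n}
  one_mem' := ⟨⟨0, by simp⟩, ⟨0, by simp⟩, ⟨0, by simp⟩, ⟨0, by simp⟩, ⟨0, by simp⟩⟩
  mul_mem' := by
    rintro g h ⟨⟨x1, hx1⟩, ⟨x2, hx2⟩, ⟨x3, hx3⟩, ⟨x4, hx4⟩, ⟨x5, hx5⟩⟩
      ⟨⟨y1, hy1⟩, ⟨y2, hy2⟩, ⟨y3, hy3⟩, ⟨y4, hy4⟩, ⟨y5, hy5⟩⟩
    refine ⟨⟨x1 + y1, ?_⟩, ⟨x2 + y2, ?_⟩, ⟨x3 + y3, ?_⟩, ⟨x4 + y4, ?_⟩,
      ⟨x5 + y5 + (x1 * y3 + x2 * y4), ?_⟩⟩ <;>
    simp [hx1, hx2, hx3, hx4, hx5, hy1, hy2, hy3, hy4, hy5]
  inv_mem' := by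
    rintro g ⟨⟨x1, hx1⟩, ⟨x2, hx2⟩, ⟨x3, hx3⟩, ⟨x4, hx4⟩, ⟨x5, hx5⟩⟩
    refine ⟨⟨-x1, ?_⟩, ⟨-x2, ?_⟩, ⟨-x3, ?_⟩, ⟨-x4, ?_⟩,
      ⟨-x5 + (x1 * x3 + x2 * x4), ?_⟩⟩ <;>
    simp [hx1, hx2, hx3, hx4, hx5]

/-- The filtration: `F 0 = F 1 = G`, `F 2 = {b = 0}`, `F 3 = {a = b = 0}`, `F 4 = 1`. -/
def filt (n : ℕ) : Subgroup Heis where
  carrier := {g | (2 ≤ n → g.b₁ = 0 ∧ g.b₂ = 0) ∧ (3 ≤ n → g.a₁ = 0 ∧ g.a₂ = 0) ∧
    (4 ≤ n → g.c = 0)}
  one_mem' := ⟨fun _ => ⟨rfl, rfl⟩, fun _ => ⟨rfl, rfl⟩, fun _ => rfl⟩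
  mul_mem' := by
    rintro g h ⟨g1, g2, g3⟩ ⟨h1, h2, h3⟩
    refine ⟨fun hn => ?_, fun hn => ?_, fun hn => ?_⟩
    · simp [g1 hn, h1 hn]
    · simp [g2 hn, h2 hn]
    · simp [g3 hn, h3 hn, g2 (by omega)]
  inv_mem' := by
    rintro g ⟨g1, g2, g3⟩
    refine ⟨fun hn => ?_, fun hn => ?_, fun hn => ?_⟩
    · simp [g1 hn]
    · simp [g2 hn]
    · simp [g3 hn, g2 (by omega)]

theorem mem_filt {n : ℕ} {g : Heis} : g ∈ filt n ↔
    (2 ≤ n → g.b₁ = 0 ∧ g.b₂ = 0) ∧ (3 ≤ n → g.a₁ = 0 ∧ g.a₂ = 0) ∧ (4 ≤ n → g.c = 0) :=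
  Iff.rfl

/-- The reduction of `g` modulo the lattice to the unit cube. -/
noncomputable def red (g : Heis) : Heis :=
  mk (-⌊g.a₁⌋) (-⌊g.a₂⌋) (-⌊g.b₁⌋) (-⌊g.b₂⌋)
    (-⌊g.c + (g.a₁ * (-⌊g.b₁⌋) + g.a₂ * (-⌊g.b₂⌋))⌋)

theorem red_mem_lattice (g : Heis) : red g ∈ lattice :=
  ⟨⟨-⌊g.a₁⌋, by simp [red]⟩, ⟨-⌊g.a₂⌋, by simp [red]⟩, ⟨-⌊g.b₁⌋, by simp [red]⟩,
    ⟨-⌊g.b₂⌋, by simp [red]⟩, ⟨-⌊g.c + (g.a₁ * (-⌊g.b₁⌋) + g.a₂ * (-⌊g.b₂⌋))⌋, by simp [red]⟩⟩

theorem red_mem_filt {n : ℕ} {g : Heis} (hg : g ∈ filt n) : red g ∈ filt n := by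
  obtain ⟨h1, h2, h3⟩ := hg
  refine ⟨fun hn => ?_, fun hn => ?_, fun hn => ?_⟩
  · simp [red, h1 hn]
  · simp [red, h2 hn]
  · simp [red, h3 hn, h2 (by omega)]

/-- The unit cube. -/
def cube : Set Heis := {g | (0 ≤ g.a₁ ∧ g.a₁ ≤ 1) ∧ (0 ≤ g.a₂ ∧ g.a₂ ≤ 1) ∧
  (0 ≤ g.b₁ ∧ g.b₁ ≤ 1) ∧ (0 ≤ g.b₂ ∧ g.b₂ ≤ 1) ∧ 0 ≤ g.c ∧ g.c ≤ 1}

theorem isCompact_cube : IsCompact cube := by
  have h : IsCompact (Set.Icc ((0, 0, 0, 0, 0) : V5) (1, 1, 1, 1, 1)) := isCompact_Icc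
  convert! h using 1
  ext g
  constructor
  · rintro ⟨⟨h1, h2⟩, ⟨h3, h4⟩, ⟨h5, h6⟩, ⟨h7, h8⟩, h9, h10⟩
    exact ⟨⟨h1, h3, h5, h7, h9⟩, ⟨h2, h4, h6, h8, h10⟩⟩
  · rintro ⟨⟨h1, h3, h5, h7, h9⟩, ⟨h2, h4, h6, h8, h10⟩⟩
    exact ⟨⟨h1, h2⟩, ⟨h3, h4⟩, ⟨h5, h6⟩, ⟨h7, h8⟩, h9, h10⟩

theorem mul_red_mem_cube (g : Heis) : g * red g ∈ cube := by
  have key : ∀ x : ℝ, 0 ≤ x + -(⌊x⌋ : ℝ) ∧ x + -(⌊x⌋ : ℝ) ≤ 1 := fun x =>
    ⟨by linarith [Int.floor_le x], by linarith [Int.lt_floor_add_one x]⟩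
  refine ⟨?_, ?_, ?_, ?_, ?_⟩
  · simpa [red] using key g.a₁
  · simpa [red] using key g.a₂
  · simpa [red] using key g.b₁
  · simpa [red] using key g.b₂
  · have h := key (g.c + (g.a₁ * (-⌊g.b₁⌋) + g.a₂ * (-⌊g.b₂⌋)))
    simp only [red, mul_c, mk_b₁, mk_b₂, mk_c]
    constructor <;> linarith [h.1, h.2]

theorem compactSpace_of {H : Subgroup Heis} (hc : IsClosed (H : Set Heis))
    (h : ∀ g ∈ H, red g ∈ H) : CompactSpace (H ⧸ lattice.subgroupOf H) := by
  have hK : IsCompact {g : H | (g : Heis) ∈ cube} := by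
    have hemb : Topology.IsClosedEmbedding (Subtype.val : H → Heis) := hc.isClosedEmbedding_subtypeVal
    exact hemb.isCompact_preimage isCompact_cube
  have hcont : Continuous (QuotientGroup.mk : H → H ⧸ lattice.subgroupOf H) := continuous_quot_mk
  have himg := hK.image hcont
  rw [← isCompact_univ_iff]
  convert! himg using 1
  symm
  rw [Set.eq_univ_iff_forall]
  intro x
  obtain ⟨g, rfl⟩ := QuotientGroup.mk_surjective x
  have hr : red (g : Heis) ∈ H := h g g.2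
  refine ⟨g * ⟨red (g : Heis), hr⟩, mul_red_mem_cube (g : Heis), ?_⟩
  rw [QuotientGroup.eq]
  rw [Subgroup.mem_subgroupOf]
  have e : (((g * ⟨red (g : Heis), hr⟩)⁻¹ * g : H) : Heis) = (red (g : Heis))⁻¹ := by
    simp
  rw [e]
  exact inv_mem (red_mem_lattice _)

theorem isClosed_filt (n : ℕ) : IsClosed (filt n : Set Heis) := by
  have h : (filt n : Set Heis) = {g | 2 ≤ n → g.b₁ = 0 ∧ g.b₂ = 0} ∩
      ({g | 3 ≤ n → g.a₁ = 0 ∧ g.a₂ = 0} ∩ {g | 4 ≤ n → g.c = 0}) := rfl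
  rw [h]
  refine IsClosed.inter ?_ (IsClosed.inter ?_ ?_)
  · by_cases hn : 2 ≤ n
    · simp only [hn, forall_const]
      exact (isClosed_eq continuous_b₁ continuous_const).inter
        (isClosed_eq continuous_b₂ continuous_const)
    · simp [hn]
  · by_cases hn : 3 ≤ n
    · simp only [hn, forall_const]
      exact (isClosed_eq continuous_a₁ continuous_const).inter
        (isClosed_eq continuous_a₂ continuous_const)
    · simp [hn]
  · by_cases hn : 4 ≤ n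
    · simp only [hn, forall_const]
      exact isClosed_eq continuous_c continuous_const
    · simp [hn]

theorem isConnected_filt (n : ℕ) : IsConnected (filt n : Set Heis) := by
  refine ⟨⟨1, one_mem _⟩, ?_⟩
  have h : @Convex ℝ V5 _ _ _ _ (filt n : Set Heis) := by
    rintro g ⟨g1, g2, g3⟩ h ⟨h1, h2, h3⟩ s t hs ht hst
    refine ⟨fun hn => ⟨?_, ?_⟩, fun hn => ⟨?_, ?_⟩, fun hn => ?_⟩
    · change s * b₁ g + t * b₁ h = 0
      rw [(g1 hn).1, (h1 hn).1]; ring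
    · change s * b₂ g + t * b₂ h = 0
      rw [(g1 hn).2, (h1 hn).2]; ring
    · change s * a₁ g + t * a₁ h = 0
      rw [(g2 hn).1, (h2 hn).1]; ring
    · change s * a₂ g + t * a₂ h = 0
      rw [(g2 hn).2, (h2 hn).2]; ring
    · change s * c g + t * c h = 0
      rw [g3 hn, h3 hn]; ring
  exact @Convex.isPreconnected V5 _ _ _ _ _ _ h

theorem filt_zero : filt 0 = ⊤ := by
  rw [eq_top_iff]
  intro g _
  exact ⟨fun h => by omega, fun h => by omega, fun h => by omega⟩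

theorem filt_one : filt 1 = ⊤ := by
  rw [eq_top_iff]
  intro g _
  exact ⟨fun h => by omega, fun h => by omega, fun h => by omega⟩

theorem filt_four : filt 4 = ⊥ := by
  rw [eq_bot_iff]
  rintro g ⟨h1, h2, h3⟩
  rw [Subgroup.mem_bot]
  exact ext' (h2 (by omega)).1 (h2 (by omega)).2 (h1 (by omega)).1 (h1 (by omega)).2 (h3 le_rfl)

theorem filt_antitone : Antitone filt := by
  rintro m n hmn g ⟨h1, h2, h3⟩
  exact ⟨fun h => h1 (by omega), fun h => h2 (by omega), fun h => h3 (by omega)⟩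

open scoped commutatorElement in
theorem commutator_eq (g h : Heis) : ⁅g, h⁆ =
    mk 0 0 0 0 (g.a₁ * h.b₁ + g.a₂ * h.b₂ - (h.a₁ * g.b₁ + h.a₂ * g.b₂)) := by
  rw [commutatorElement_def]
  refine ext' ?_ ?_ ?_ ?_ ?_ <;>
    simp only [mul_a₁, mul_a₂, mul_b₁, mul_b₂, mul_c, inv_a₁, inv_a₂, inv_b₁, inv_b₂, inv_c,
      mk_a₁, mk_a₂, mk_b₁, mk_b₂, mk_c] <;> ring

theorem filt_comm (i j : ℕ) : ⁅filt i, filt j⁆ ≤ filt (i + j) := by
  rw [Subgroup.commutator_le]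
  rintro g ⟨g1, g2, g3⟩ h ⟨h1, h2, h3⟩
  rw [commutator_eq]
  refine ⟨fun _ => ⟨rfl, rfl⟩, fun _ => ⟨rfl, rfl⟩, fun hn => ?_⟩
  rw [mk_c]
  rcases Nat.lt_or_ge i 3 with hi | hi
  · rcases Nat.lt_or_ge j 3 with hj | hj
    · obtain ⟨gb1, gb2⟩ := g1 (by omega)
      obtain ⟨hb1, hb2⟩ := h1 (by omega)
      rw [gb1, gb2, hb1, hb2]; ring
    · obtain ⟨hb1, hb2⟩ := h1 (by omega)
      obtain ⟨ha1, ha2⟩ := h2 hj
      rw [ha1, ha2, hb1, hb2]; ring
  · obtain ⟨gb1, gb2⟩ := g1 (by omega)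
    obtain ⟨ga1, ga2⟩ := g2 hi
    rw [ga1, ga2, gb1, gb2]; ring

open scoped commutatorElement in
theorem isNilpotent : Group.IsNilpotent Heis := by
  rw [Subgroup.nilpotent_iff_finite_descending_central_series]
  refine ⟨2, fun n => if n = 0 then ⊤ else if n = 1 then filt 3 else ⊥, ⟨by simp, ?_⟩, by simp⟩
  intro x n hx g
  rcases Nat.eq_zero_or_pos n with h | h
  · subst h
    simp only [zero_add, one_ne_zero, if_false, if_true]
    rw [commutator_eq]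
    exact ⟨fun _ => ⟨rfl, rfl⟩, fun _ => ⟨rfl, rfl⟩, fun h => by omega⟩
  · have e : ⁅x, g⁆ = 1 := by
      have h1 : x ∈ filt 3 := by
        simp only at hx
        rw [if_neg (by omega)] at hx
        by_cases h2 : n = 1
        · rwa [if_pos h2] at hx
        · rw [if_neg h2, Subgroup.mem_bot] at hx
          rw [hx]
          exact one_mem _
      obtain ⟨h2, h3, _⟩ := h1
      rw [commutator_eq, (h2 (by omega)).1, (h2 (by omega)).2, (h3 le_rfl).1, (h3 le_rfl).2]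
      refine ext' rfl rfl rfl rfl ?_
      rw [mk_c, one_c]
      ring
    rw [e]
    exact one_mem _

theorem discreteTopology_lattice : DiscreteTopology lattice := by
  rw [discreteTopology_iff_isOpen_singleton_one]
  have h : ({1} : Set lattice) = Subtype.val ⁻¹' ({g : Heis | |g.a₁| < 1} ∩
      ({g : Heis | |g.a₂| < 1} ∩ ({g : Heis | |g.b₁| < 1} ∩ ({g : Heis | |g.b₂| < 1} ∩
      {g : Heis | |g.c| < 1})))) := by
    ext g
    constructor
    · rintro rfl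
      simp
    · rintro ⟨h1, h2, h3, h4, h5⟩
      obtain ⟨⟨x1, e1⟩, ⟨x2, e2⟩, ⟨x3, e3⟩, ⟨x4, e4⟩, ⟨x5, e5⟩⟩ := g.2
      have key : ∀ {x : ℝ} {n : ℤ}, x = n → |x| < 1 → x = 0 := by
        intro x n hx hlt
        rw [hx] at hlt ⊢
        have : |n| < 1 := by exact_mod_cast hlt
        rw [Int.abs_lt_one_iff] at this
        rw [this, Int.cast_zero]
      rw [Set.mem_singleton_iff]
      apply Subtype.ext
      exact ext' (key e1 h1) (key e2 h2) (key e3 h3) (key e4 h4) (key e5 h5)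
  rw [h]
  apply IsOpen.preimage continuous_subtype_val
  exact (isOpen_lt continuous_a₁.abs continuous_const).inter
    ((isOpen_lt continuous_a₂.abs continuous_const).inter
    ((isOpen_lt continuous_b₁.abs continuous_const).inter
    ((isOpen_lt continuous_b₂.abs continuous_const).inter
    (isOpen_lt continuous_c.abs continuous_const))))

instance : ContractibleSpace Heis := inferInstanceAs (ContractibleSpace V5)

theorem isFilteredNilmanifold : IsFilteredNilmanifold 3 lattice filt where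
  t2 := inferInstance
  secondCountable := inferInstance
  connected := inferInstance
  simplyConnected := inferInstance
  nilpotent := isNilpotent
  discrete := discreteTopology_lattice
  cocompact := by
    have h := compactSpace_of (H := ⊤) isClosed_univ (fun _ _ => trivial)
    have hK := isCompact_cube
    have hcont : Continuous (QuotientGroup.mk : Heis → Heis ⧸ lattice) := continuous_quot_mk
    have himg := hK.image hcont
    rw [← isCompact_univ_iff]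
    convert! himg using 1
    symm
    rw [Set.eq_univ_iff_forall]
    intro x
    obtain ⟨g, rfl⟩ := QuotientGroup.mk_surjective x
    refine ⟨g * red g, mul_red_mem_cube g, ?_⟩
    rw [QuotientGroup.eq]
    have e : (g * red g)⁻¹ * g = (red g)⁻¹ := by group
    rw [e]
    exact inv_mem (red_mem_lattice _)
  zero := filt_zero
  one := filt_one
  anti := filt_antitone
  comm := filt_comm
  last := filt_four
  closed := isClosed_filt
  conn := isConnected_filt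
  rational := fun i => compactSpace_of (isClosed_filt i) (fun _ hg => red_mem_filt hg)

end Heis

open Heis

/-! ## Coordinates of a polynomial sequence -/

section Coordinates

variable {f : (Fin 3 → ℤ) → Heis} (hf : IsPolySeq filt f)

include hf

theorem poly_b₁ (n x y : Fin 3 → ℤ) :
    (f (n + x + y)).b₁ = (f (n + x)).b₁ + (f (n + y)).b₁ - (f n).b₁ := by
  have h := (mem_filt.mp (hf [x, y] n)).1 (le_refl 2)
  have h1 := h.1
  simp only [List.foldr, delta, mul_b₁, inv_b₁] at h1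
  linear_combination h1

theorem poly_b₂ (n x y : Fin 3 → ℤ) :
    (f (n + x + y)).b₂ = (f (n + x)).b₂ + (f (n + y)).b₂ - (f n).b₂ := by
  have h := (mem_filt.mp (hf [x, y] n)).1 (le_refl 2)
  have h1 := h.2
  simp only [List.foldr, delta, mul_b₂, inv_b₂] at h1
  linear_combination h1

theorem poly_a₁ (n x y z : Fin 3 → ℤ) :
    (f (n + x + y + z)).a₁ = (f (n + x + y)).a₁ + (f (n + x + z)).a₁ + (f (n + y + z)).a₁
      - (f (n + x)).a₁ - (f (n + y)).a₁ - (f (n + z)).a₁ + (f n).a₁ := by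
  have h := (mem_filt.mp (hf [x, y, z] n)).2.1 (le_refl 3)
  have h1 := h.1
  simp only [List.foldr, delta, mul_a₁, inv_a₁] at h1
  linear_combination h1

theorem poly_a₂ (n x y z : Fin 3 → ℤ) :
    (f (n + x + y + z)).a₂ = (f (n + x + y)).a₂ + (f (n + x + z)).a₂ + (f (n + y + z)).a₂
      - (f (n + x)).a₂ - (f (n + y)).a₂ - (f (n + z)).a₂ + (f n).a₂ := by
  have h := (mem_filt.mp (hf [x, y, z] n)).2.1 (le_refl 3)
  have h1 := h.2
  simp only [List.foldr, delta, mul_a₂, inv_a₂] at h1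
  linear_combination h1

theorem poly_c (n x y z w : Fin 3 → ℤ) :
    (f (n + x + y + z + w)).c =
      (f (n + x + y + z)).c + (f (n + x + y + w)).c + (f (n + x + z + w)).c
      + (f (n + y + z + w)).c
      - (f (n + x + y)).c - (f (n + x + z)).c - (f (n + x + w)).c - (f (n + y + z)).c
      - (f (n + y + w)).c - (f (n + z + w)).c
      + (f (n + x)).c + (f (n + y)).c + (f (n + z)).c + (f (n + w)).c - (f n).c := by
  have h := (mem_filt.mp (hf [x, y, z, w] n)).2.2 (le_refl 4)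
  simp only [List.foldr, delta, mul_a₁, inv_a₁, mul_a₂, inv_a₂, mul_b₁, inv_b₁, mul_b₂, inv_b₂,
    mul_c, inv_c] at h
  simp only [poly_a₁ hf, poly_a₂ hf, poly_b₁ hf, poly_b₂ hf] at h
  linear_combination h

end Coordinates

/-! ## Integers in `ℝ` -/

/-- `x` is an integer. -/
def IsZ (x : ℝ) : Prop := ∃ n : ℤ, x = n

theorem IsZ.add {x y : ℝ} (hx : IsZ x) (hy : IsZ y) : IsZ (x + y) := by
  obtain ⟨n, rfl⟩ := hx
  obtain ⟨m, rfl⟩ := hy
  exact ⟨n + m, by push_cast; ring⟩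

theorem IsZ.neg {x : ℝ} (hx : IsZ x) : IsZ (-x) := by
  obtain ⟨n, rfl⟩ := hx
  exact ⟨-n, by push_cast; ring⟩

theorem IsZ.sub {x y : ℝ} (hx : IsZ x) (hy : IsZ y) : IsZ (x - y) := by
  rw [sub_eq_add_neg]
  exact hx.add hy.neg

theorem IsZ.mul {x y : ℝ} (hx : IsZ x) (hy : IsZ y) : IsZ (x * y) := by
  obtain ⟨n, rfl⟩ := hx
  obtain ⟨m, rfl⟩ := hy
  exact ⟨n * m, by push_cast; ring⟩

theorem isZ_intCast (n : ℤ) : IsZ (n : ℝ) := ⟨n, rfl⟩

theorem mem_lattice_iff {g : Heis} : g ∈ lattice ↔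
    IsZ g.a₁ ∧ IsZ g.a₂ ∧ IsZ g.b₁ ∧ IsZ g.b₂ ∧ IsZ g.c := Iff.rfl

theorem exists_rep (p : ℕ) [NeZero p] {d : ℕ} (N : Fin d → ℤ) :
    ∃ k : Fin d → ℤ, N = tau (fun i => (N i : ZMod p)) + (p : ℤ) • k := by
  refine ⟨fun i => N i / p, ?_⟩
  ext i
  simp only [tau, Pi.add_apply, Pi.smul_apply, smul_eq_mul, ZMod.val_intCast]
  exact (Int.emod_add_mul_ediv (N i) p).symm

/-! ## The obstruction -/

section Obstruction

variable {f : (Fin 3 → ℤ) → Heis} (hf : IsPolySeq filt f)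

/-- The mixed second difference of `a₁`. -/
noncomputable def S₁ : (Fin 3 → ℤ) →+ (Fin 3 → ℤ) →+ ℝ :=
  AddMonoidHom.mk' (fun x => AddMonoidHom.mk'
    (fun y => (f (x + y)).a₁ - (f x).a₁ - (f y).a₁ + (f 0).a₁) (by
      intro y z
      have h := poly_a₁ hf 0 x y z
      simp only [zero_add] at h
      rw [← add_assoc, h]
      ring)) (by
    intro x y
    refine AddMonoidHom.ext fun z => ?_
    change (f (x + y + z)).a₁ - (f (x + y)).a₁ - (f z).a₁ + (f 0).a₁ =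
      ((f (x + z)).a₁ - (f x).a₁ - (f z).a₁ + (f 0).a₁) +
      ((f (y + z)).a₁ - (f y).a₁ - (f z).a₁ + (f 0).a₁)
    have h := poly_a₁ hf 0 x y z
    simp only [zero_add] at h
    rw [h]
    ring)

/-- The mixed second difference of `a₂`. -/
noncomputable def S₂ : (Fin 3 → ℤ) →+ (Fin 3 → ℤ) →+ ℝ :=
  AddMonoidHom.mk' (fun x => AddMonoidHom.mk'
    (fun y => (f (x + y)).a₂ - (f x).a₂ - (f y).a₂ + (f 0).a₂) (by
      intro y z
      have h := poly_a₂ hf 0 x y z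
      simp only [zero_add] at h
      rw [← add_assoc, h]
      ring)) (by
    intro x y
    refine AddMonoidHom.ext fun z => ?_
    change (f (x + y + z)).a₂ - (f (x + y)).a₂ - (f z).a₂ + (f 0).a₂ =
      ((f (x + z)).a₂ - (f x).a₂ - (f z).a₂ + (f 0).a₂) +
      ((f (y + z)).a₂ - (f y).a₂ - (f z).a₂ + (f 0).a₂)
    have h := poly_a₂ hf 0 x y z
    simp only [zero_add] at h
    rw [h]
    ring)

theorem S₁_apply (x y : Fin 3 → ℤ) :
    S₁ hf x y = (f (x + y)).a₁ - (f x).a₁ - (f y).a₁ + (f 0).a₁ := rfl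

theorem S₂_apply (x y : Fin 3 → ℤ) :
    S₂ hf x y = (f (x + y)).a₂ - (f x).a₂ - (f y).a₂ + (f 0).a₂ := rfl

/-- The first difference of `b₁`. -/
noncomputable def L₁ : (Fin 3 → ℤ) →+ ℝ :=
  AddMonoidHom.mk' (fun x => (f x).b₁ - (f 0).b₁) (by
    intro x y
    have h := poly_b₁ hf 0 x y
    simp only [zero_add] at h
    rw [h]
    ring)

/-- The first difference of `b₂`. -/
noncomputable def L₂ : (Fin 3 → ℤ) →+ ℝ :=
  AddMonoidHom.mk' (fun x => (f x).b₂ - (f 0).b₂) (by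
    intro x y
    have h := poly_b₂ hf 0 x y
    simp only [zero_add] at h
    rw [h]
    ring)

theorem L₁_apply (x : Fin 3 → ℤ) : L₁ hf x = (f x).b₁ - (f 0).b₁ := rfl
theorem L₂_apply (x : Fin 3 → ℤ) : L₂ hf x = (f x).b₂ - (f 0).b₂ := rfl

/-- The mixed third difference of `c` as an additive function of the last argument. -/
noncomputable def T (x y : Fin 3 → ℤ) : (Fin 3 → ℤ) →+ ℝ :=
  AddMonoidHom.mk' (fun z => (f (x + y + z)).c - (f (x + y)).c - (f (x + z)).c - (f (y + z)).c +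
    (f x).c + (f y).c + (f z).c - (f 0).c) (by
    intro z w
    have h := poly_c hf 0 x y z w
    simp only [zero_add] at h
    rw [← add_assoc, ← add_assoc x z w, ← add_assoc y z w, h]
    ring)

theorem T_apply (x y z : Fin 3 → ℤ) :
    T hf x y z = (f (x + y + z)).c - (f (x + y)).c - (f (x + z)).c - (f (y + z)).c +
    (f x).c + (f y).c + (f z).c - (f 0).c := rfl

theorem T_symm (x y z : Fin 3 → ℤ) : T hf x y z = T hf x z y := by
  rw [T_apply, T_apply, add_right_comm x y z, add_comm y z]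
  ring

variable {p : ℕ} (hper : ∀ N m : Fin 3 → ℤ, (f (N + (p : ℤ) • m))⁻¹ * f N ∈ lattice)

include hper

theorem per_a₁ (N m : Fin 3 → ℤ) : IsZ ((f (N + (p : ℤ) • m)).a₁ - (f N).a₁) := by
  have h := (mem_lattice_iff.mp (hper N m)).1
  rw [mul_a₁, inv_a₁] at h
  convert! h.neg using 1
  ring

theorem per_a₂ (N m : Fin 3 → ℤ) : IsZ ((f (N + (p : ℤ) • m)).a₂ - (f N).a₂) := by
  have h := (mem_lattice_iff.mp (hper N m)).2.1
  rw [mul_a₂, inv_a₂] at h
  convert! h.neg using 1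
  ring

theorem per_b₁ (N m : Fin 3 → ℤ) : IsZ ((f (N + (p : ℤ) • m)).b₁ - (f N).b₁) := by
  have h := (mem_lattice_iff.mp (hper N m)).2.2.1
  rw [mul_b₁, inv_b₁] at h
  convert! h.neg using 1
  ring

theorem per_b₂ (N m : Fin 3 → ℤ) : IsZ ((f (N + (p : ℤ) • m)).b₂ - (f N).b₂) := by
  have h := (mem_lattice_iff.mp (hper N m)).2.2.2.1
  rw [mul_b₂, inv_b₂] at h
  convert! h.neg using 1
  ring

theorem L₁_smul_isZ (z : Fin 3 → ℤ) : IsZ ((p : ℝ) * L₁ hf z) := by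
  have h := per_b₁ hper 0 z
  rw [zero_add] at h
  have h1 : L₁ hf ((p : ℤ) • z) = (p : ℝ) * L₁ hf z := by
    rw [map_zsmul, zsmul_eq_mul, Int.cast_natCast]
  rw [← h1]
  exact h

theorem L₂_smul_isZ (z : Fin 3 → ℤ) : IsZ ((p : ℝ) * L₂ hf z) := by
  have h := per_b₂ hper 0 z
  rw [zero_add] at h
  have h1 : L₂ hf ((p : ℤ) • z) = (p : ℝ) * L₂ hf z := by
    rw [map_zsmul, zsmul_eq_mul, Int.cast_natCast]
  rw [← h1]
  exact h

theorem S₁_smul_isZ (x y : Fin 3 → ℤ) : IsZ ((p : ℝ) * S₁ hf x y) := by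
  have h1 : S₁ hf x ((p : ℤ) • y) = (p : ℝ) * S₁ hf x y := by
    rw [map_zsmul, zsmul_eq_mul, Int.cast_natCast]
  rw [← h1, S₁_apply]
  have h2 := per_a₁ hper x y
  have h3 := per_a₁ hper 0 y
  rw [zero_add] at h3
  convert! h2.sub h3 using 1
  ring

theorem S₂_smul_isZ (x y : Fin 3 → ℤ) : IsZ ((p : ℝ) * S₂ hf x y) := by
  have h1 : S₂ hf x ((p : ℤ) • y) = (p : ℝ) * S₂ hf x y := by
    rw [map_zsmul, zsmul_eq_mul, Int.cast_natCast]
  rw [← h1, S₂_apply]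
  have h2 := per_a₂ hper x y
  have h3 := per_a₂ hper 0 y
  rw [zero_add] at h3
  convert! h2.sub h3 using 1
  ring

/-- The first difference of `c` in the direction `p z` modulo the integers. -/
theorem per_c (N z : Fin 3 → ℤ) : IsZ ((f (N + (p : ℤ) • z)).c - (f N).c -
    ((f N).a₁ * (p * L₁ hf z) + (f N).a₂ * (p * L₂ hf z))) := by
  have h := (mem_lattice_iff.mp (hper N z)).2.2.2.2
  rw [mul_c, inv_c, inv_a₁, inv_a₂] at h
  have e1 : (f (N + (p : ℤ) • z)).b₁ - (f N).b₁ = p * L₁ hf z := by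
    have h1 : L₁ hf (N + (p : ℤ) • z) = L₁ hf N + p * L₁ hf z := by
      rw [map_add, map_zsmul, zsmul_eq_mul, Int.cast_natCast]
    rw [L₁_apply, L₁_apply hf N] at h1
    linear_combination h1
  have e2 : (f (N + (p : ℤ) • z)).b₂ - (f N).b₂ = p * L₂ hf z := by
    have h1 : L₂ hf (N + (p : ℤ) • z) = L₂ hf N + p * L₂ hf z := by
      rw [map_add, map_zsmul, zsmul_eq_mul, Int.cast_natCast]
    rw [L₂_apply, L₂_apply hf N] at h1
    linear_combination h1
  have h2 := (per_a₁ hper N z).mul (L₁_smul_isZ hf hper z)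
  have h3 := (per_a₂ hper N z).mul (L₂_smul_isZ hf hper z)
  convert! ((h2.add h3).sub h) using 1
  rw [← e1, ← e2]
  ring

theorem T_congr (x y z : Fin 3 → ℤ) :
    IsZ ((p : ℝ) * T hf x y z - (S₁ hf x y * (p * L₁ hf z) + S₂ hf x y * (p * L₂ hf z))) := by
  have h1 : T hf x y ((p : ℤ) • z) = (p : ℝ) * T hf x y z := by
    rw [map_zsmul, zsmul_eq_mul, Int.cast_natCast]
  rw [← h1, T_apply, S₁_apply, S₂_apply]
  have h2 := per_c hf hper (x + y) z
  have h3 := per_c hf hper x z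
  have h4 := per_c hf hper y z
  have h5 := per_c hf hper 0 z
  rw [zero_add] at h5
  convert! ((h2.sub h3).sub h4).add h5 using 1
  ring

theorem S_congr (x y z : Fin 3 → ℤ) :
    IsZ ((S₁ hf x y * (p * L₁ hf z) + S₂ hf x y * (p * L₂ hf z)) -
      (S₁ hf x z * (p * L₁ hf y) + S₂ hf x z * (p * L₂ hf y))) := by
  have h1 := T_congr hf hper x y z
  have h2 := T_congr hf hper x z y
  rw [T_symm] at h1
  convert! h2.sub h1 using 1
  ring

end Obstruction

/-! ## The sequence -/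

section Sequence

variable (q : ℝ)

/-- The sequence `f(n) = ((3yz/p, 3xz/p), (x/p, y/p), (3xyz - z³)/p²)` with `q = 1/p`. -/
noncomputable def seq (n : Fin 3 → ℤ) : Heis :=
  mk (3 * n 1 * n 2 * q) (3 * n 0 * n 2 * q) (n 0 * q) (n 1 * q)
    ((3 * n 0 * n 1 * n 2 - (n 2 : ℝ) ^ 3) * q ^ 2)

theorem seq_three (x y z n : Fin 3 → ℤ) :
    [x, y, z].foldr delta (seq q) n = [x, y, z].foldr delta (seq q) 0 := by
  refine ext' ?_ ?_ ?_ ?_ ?_
  · simp only [List.foldr, delta, mul_a₁, inv_a₁, seq, mk_a₁, Pi.add_apply, Pi.zero_apply]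
    push_cast
    ring
  · simp only [List.foldr, delta, mul_a₂, inv_a₂, seq, mk_a₂, Pi.add_apply, Pi.zero_apply]
    push_cast
    ring
  · simp only [List.foldr, delta, mul_b₁, inv_b₁, seq, mk_b₁, Pi.add_apply, Pi.zero_apply]
    push_cast
    ring
  · simp only [List.foldr, delta, mul_b₂, inv_b₂, seq, mk_b₂, Pi.add_apply, Pi.zero_apply]
    push_cast
    ring
  · simp only [List.foldr, delta, mul_a₁, inv_a₁, mul_a₂, inv_a₂, mul_b₁, inv_b₁, mul_b₂, inv_b₂,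
      mul_c, inv_c, seq, mk_a₁, mk_a₂, mk_b₁, mk_b₂, mk_c, Pi.add_apply, Pi.zero_apply]
    push_cast
    ring

theorem delta_const {G : Type*} [Group G] {d : ℕ} (h : Fin d → ℤ) {f : (Fin d → ℤ) → G}
    (hf : ∀ n, f n = f 0) : delta h f = fun _ => 1 := by
  ext n
  rw [delta, hf (n + h), hf n, mul_inv_cancel]

theorem foldr_long : ∀ (hs : List (Fin 3 → ℤ)), 4 ≤ hs.length →
    hs.foldr delta (seq q) = fun _ => 1
  | [], h => by simp at h
  | [_], h => by simp at h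
  | [_, _], h => by simp at h
  | [_, _, _], h => by simp at h
  | [w, x, y, z], _ => by
    rw [List.foldr_cons]
    exact delta_const w (seq_three q x y z)
  | v :: w :: x :: y :: z :: hs, _ => by
    rw [List.foldr_cons, foldr_long (w :: x :: y :: z :: hs) (by simp)]
    exact delta_const v (fun _ => rfl)

theorem seq_poly : IsPolySeq filt (seq q) := by
  intro hs n
  match hs with
  | [] => rw [List.length_nil, filt_zero]; trivial
  | [_] =>
    rw [List.length_singleton, filt_one]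
    trivial
  | [x, y] =>
    refine ⟨fun _ => ⟨?_, ?_⟩, fun h => ?_, fun h => ?_⟩
    · simp only [List.foldr, delta, mul_b₁, inv_b₁, seq, mk_b₁, Pi.add_apply]
      push_cast
      ring
    · simp only [List.foldr, delta, mul_b₂, inv_b₂, seq, mk_b₂, Pi.add_apply]
      push_cast
      ring
    · simp at h
    · simp at h
  | [x, y, z] =>
    refine ⟨fun _ => ⟨?_, ?_⟩, fun _ => ⟨?_, ?_⟩, fun h => ?_⟩
    · simp only [List.foldr, delta, mul_b₁, inv_b₁, seq, mk_b₁, Pi.add_apply]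
      push_cast
      ring
    · simp only [List.foldr, delta, mul_b₂, inv_b₂, seq, mk_b₂, Pi.add_apply]
      push_cast
      ring
    · simp only [List.foldr, delta, mul_a₁, inv_a₁, seq, mk_a₁, Pi.add_apply]
      push_cast
      ring
    · simp only [List.foldr, delta, mul_a₂, inv_a₂, seq, mk_a₂, Pi.add_apply]
      push_cast
      ring
    · simp at h
  | w :: x :: y :: z :: hs =>
    rw [foldr_long q (w :: x :: y :: z :: hs) (by simp)]
    exact one_mem _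

end Sequence

/-! ## The quadric `x y = z²` -/

section Quadric

variable (p : ℕ) [hp : Fact p.Prime]

/-- The matrix of the quadratic form `2 x y - 2 z²`. -/
def mat : Matrix (Fin 3) (Fin 3) (ZMod p) := !![0, 1, 0; 1, 0, 0; 0, 0, -2]

theorem mat_symm : (mat p).IsSymm := by
  ext i j
  fin_cases i <;> fin_cases j <;> rfl

variable {p}

theorem two_ne (hp5 : 5 ≤ p) : (2 : ZMod p) ≠ 0 := by
  intro h0
  have h1 : ((2 : ℕ) : ZMod p) = 0 := by exact_mod_cast h0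
  have := Nat.le_of_dvd (by norm_num) ((ZMod.natCast_eq_zero_iff 2 p).mp h1)
  omega

theorem mat_rank (hp5 : 5 ≤ p) : 3 ≤ (mat p).rank := by
  have hdet : (mat p).det = 2 := by
    rw [mat, Matrix.det_fin_three]
    simp
  have hu : IsUnit (mat p) := by
    rw [Matrix.isUnit_iff_isUnit_det, hdet]
    exact isUnit_iff_ne_zero.mpr (two_ne hp5)
  rw [Matrix.rank_of_isUnit _ hu, Fintype.card_fin]

theorem mem_zeroSet_iff (hp5 : 5 ≤ p) (n : Fin 3 → ZMod p) :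
    n ∈ zeroSet (mat p) 0 0 ↔ n 0 * n 1 = n 2 ^ 2 := by
  have h : dotProduct (Matrix.vecMul n (mat p)) n + dotProduct n 0 + 0 =
      2 * (n 0 * n 1 - n 2 ^ 2) := by
    simp [mat, dotProduct, Matrix.vecMul, Fin.sum_univ_three]
    ring
  change dotProduct (Matrix.vecMul n (mat p)) n + dotProduct n 0 + 0 = 0 ↔ _
  rw [h, mul_eq_zero, or_iff_right (two_ne hp5), sub_eq_zero]

/-- The sequence is partially periodic at every integer point over the quadric. -/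
theorem seq_per (hp5 : 5 ≤ p) {N : Fin 3 → ℤ}
    (hN : (fun i => (N i : ZMod p)) ∈ zeroSet (mat p) 0 0) (m : Fin 3 → ℤ) :
    (seq (p : ℝ)⁻¹ (N + (p : ℤ) • m))⁻¹ * seq (p : ℝ)⁻¹ N ∈ lattice := by
  rw [mem_zeroSet_iff hp5] at hN
  have hdvd : (p : ℤ) ∣ N 0 * N 1 - N 2 ^ 2 := by
    rw [← ZMod.intCast_zmod_eq_zero_iff_dvd]
    push_cast
    rw [hN, sub_self]
  obtain ⟨w, hw⟩ := hdvd
  have hw' : ((N 0 : ℝ) * N 1 - (N 2 : ℝ) ^ 2) = p * w := by exact_mod_cast hw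
  have hp0 : (p : ℝ) ≠ 0 := by
    have := hp.out.pos
    positivity
  rw [mem_lattice_iff]
  refine ⟨⟨-(3 * (N 1 * m 2 + N 2 * m 1 + p * m 1 * m 2)), ?_⟩,
    ⟨-(3 * (N 0 * m 2 + N 2 * m 0 + p * m 0 * m 2)), ?_⟩, ⟨-m 0, ?_⟩, ⟨-m 1, ?_⟩,
    ⟨-3 * m 2 * w + 3 * N 2 * m 2 ^ 2 + 3 * m 0 * m 1 * N 2 + p * (m 2 ^ 3 + 3 * m 0 * m 1 * m 2),
      ?_⟩⟩
  · simp only [mul_a₁, inv_a₁, seq, mk_a₁, Pi.add_apply, Pi.smul_apply, smul_eq_mul]
    push_cast
    field_simp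
    ring
  · simp only [mul_a₂, inv_a₂, seq, mk_a₂, Pi.add_apply, Pi.smul_apply, smul_eq_mul]
    push_cast
    field_simp
    ring
  · simp only [mul_b₁, inv_b₁, seq, mk_b₁, Pi.add_apply, Pi.smul_apply, smul_eq_mul]
    push_cast
    field_simp
    ring
  · simp only [mul_b₂, inv_b₂, seq, mk_b₂, Pi.add_apply, Pi.smul_apply, smul_eq_mul]
    push_cast
    field_simp
    ring
  · simp only [mul_c, inv_c, inv_a₁, inv_a₂, seq, mk_a₁, mk_a₂, mk_b₁, mk_b₂, mk_c, Pi.add_apply,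
      Pi.smul_apply, smul_eq_mul]
    push_cast
    field_simp
    linear_combination (-3 * (m 2 : ℝ) * p) * hw'

end Quadric

/-! ## The contradiction -/

/-- No `p`-periodic polynomial sequence has the values of `seq` on the quadric modulo the
lattice. -/
theorem no_extension {p : ℕ} (hp5 : 5 ≤ p) (hp : p.Prime) {f : (Fin 3 → ℤ) → Heis}
    (hf : IsPolySeq filt f)
    (hper : ∀ N m : Fin 3 → ℤ, (f (N + (p : ℤ) • m))⁻¹ * f N ∈ lattice)
    (vals : ∀ N : Fin 3 → ℤ, N 0 * N 1 = N 2 ^ 2 → IsZ ((f N).a₁ - 3 * N 1 * N 2 * (p : ℝ)⁻¹) ∧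
      IsZ ((f N).b₁ - N 0 * (p : ℝ)⁻¹) ∧ IsZ ((f N).b₂ - N 1 * (p : ℝ)⁻¹)) : False := by
  have hp0 : (p : ℝ) ≠ 0 := by
    have := hp.pos
    positivity
  have hpq : (p : ℝ) * (p : ℝ)⁻¹ = 1 := mul_inv_cancel₀ hp0
  generalize hq : (p : ℝ)⁻¹ = q at *
  obtain ⟨ex, hex⟩ : ∃ ex : Fin 3 → ℤ, ex = ![1, 0, 0] := ⟨_, rfl⟩
  obtain ⟨ey, hey⟩ : ∃ ey : Fin 3 → ℤ, ey = ![0, 1, 0] := ⟨_, rfl⟩
  obtain ⟨ez, hez⟩ : ∃ ez : Fin 3 → ℤ, ez = ![0, 0, 1] := ⟨_, rfl⟩
  have v0 := vals 0 (by simp)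
  have vx := vals ex (by subst hex; decide)
  have vy := vals ey (by subst hey; decide)
  have vA := vals (ex + ey + ez) (by subst hex hey hez; decide)
  have vA' := vals (ex + ey + -ez) (by subst hex hey hez; decide)
  have vB := vals (ex + (4 : ℤ) • ey + (ez + ez)) (by subst hex hey hez; decide)
  have vB' := vals (ex + (4 : ℤ) • ey + (-ez + -ez)) (by subst hex hey hez; decide)
  -- numerical values of the coordinates
  have x0 : ex 0 = 1 := by rw [hex]; rfl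
  have x1 : ex 1 = 0 := by rw [hex]; rfl
  have x2 : ex 2 = 0 := by rw [hex]; rfl
  have y0 : ey 0 = 0 := by rw [hey]; rfl
  have y1 : ey 1 = 1 := by rw [hey]; rfl
  have y2 : ey 2 = 0 := by rw [hey]; rfl
  have z0 : ez 0 = 0 := by rw [hez]; rfl
  have z1 : ez 1 = 0 := by rw [hez]; rfl
  have z2 : ez 2 = 1 := by rw [hez]; rfl
  simp only [Pi.add_apply, Pi.neg_apply, Pi.smul_apply, Pi.zero_apply, smul_eq_mul, x0, x1, x2,
    y0, y1, y2, z0, z1, z2] at v0 vx vy vA vA' vB vB'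
  push_cast at v0 vx vy vA vA' vB vB'
  -- the linear parts of `b`
  have l1x : IsZ (L₁ hf ex - q) := by
    rw [L₁_apply]
    convert! vx.2.1.sub v0.2.1 using 1
    ring
  have l2x : IsZ (L₂ hf ex) := by
    rw [L₂_apply]
    convert! vx.2.2.sub v0.2.2 using 1
    ring
  have l1y : IsZ (L₁ hf ey) := by
    rw [L₁_apply]
    convert! vy.2.1.sub v0.2.1 using 1
    ring
  have l2y : IsZ (L₂ hf ey - q) := by
    rw [L₂_apply]
    convert! vy.2.2.sub v0.2.2 using 1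
    ring
  have l1z : IsZ (L₁ hf ez) := by
    have h1 : L₁ hf (ex + ey + ez) = L₁ hf ex + L₁ hf ey + L₁ hf ez := by
      rw [map_add, map_add]
    rw [L₁_apply hf (ex + ey + ez)] at h1
    convert! ((vA.2.1.sub v0.2.1).sub l1x).sub l1y using 1
    linear_combination -h1
  have l2z : IsZ (L₂ hf ez) := by
    have h1 : L₂ hf (ex + ey + ez) = L₂ hf ex + L₂ hf ey + L₂ hf ez := by
      rw [map_add, map_add]
    rw [L₂_apply hf (ex + ey + ez)] at h1
    convert! ((vA.2.2.sub v0.2.2).sub l2x).sub l2y using 1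
    linear_combination -h1
  -- `S₁(e_y, e_z)` is an integer
  have hS : IsZ (S₁ hf ey ez) := by
    have h1 := S_congr hf hper ey ez ex
    have h2 := (S₁_smul_isZ hf hper ey ez).mul l1x
    have h3 := (S₂_smul_isZ hf hper ey ez).mul l2x
    have h4 := (S₁_smul_isZ hf hper ey ex).mul l1z
    have h5 := (S₂_smul_isZ hf hper ey ex).mul l2z
    convert! (((h1.sub h2).sub h3).add h4).add h5 using 1
    linear_combination (-S₁ hf ey ez) * hpq
  -- the values of `a₁`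
  have add1 : ∀ x y : Fin 3 → ℤ, (f (x + y)).a₁ = (f x).a₁ + (f y).a₁ - (f 0).a₁ + S₁ hf x y := by
    intro x y
    rw [S₁_apply]
    ring
  have key : ((f (ex + (4 : ℤ) • ey + (ez + ez))).a₁ - (f (ex + (4 : ℤ) • ey + (-ez + -ez))).a₁) -
      2 * ((f (ex + ey + ez)).a₁ - (f (ex + ey + -ez)).a₁) = 12 * S₁ hf ey ez := by
    have e4 : S₁ hf ((4 : ℤ) • ey) ez = 4 * S₁ hf ey ez := by
      rw [map_zsmul]
      change (4 : ℤ) • (S₁ hf ey ez) = 4 * S₁ hf ey ez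
      rw [zsmul_eq_mul]
      norm_num
    rw [add1 (ex + (4 : ℤ) • ey) (ez + ez), add1 (ex + (4 : ℤ) • ey) (-ez + -ez),
      add1 (ex + ey) ez, add1 (ex + ey) (-ez), add1 ez ez, add1 (-ez) (-ez)]
    simp only [map_add, map_neg, AddMonoidHom.add_apply, AddMonoidHom.neg_apply, e4]
    ring
  have h36 : IsZ (36 * q) := by
    have h1 := (isZ_intCast 12).mul hS
    have h2 := (vB.1.sub vB'.1).sub ((isZ_intCast 2).mul (vA.1.sub vA'.1))
    convert! h1.sub h2 using 1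
    push_cast
    linear_combination key
  obtain ⟨n, hn⟩ := h36
  have h1 : (36 : ℝ) = n * p := by
    rw [← hn, mul_assoc, mul_comm q, hpq, mul_one]
  have h2 : (36 : ℤ) = n * p := by exact_mod_cast h1
  have h3 : (p : ℤ) ∣ 36 := ⟨n, by rw [h2, mul_comm]⟩
  have h4 : p ∣ 36 := by exact_mod_cast h3
  have h5 : p ∣ 6 ^ 2 := h4
  have h6 := hp.dvd_of_dvd_pow h5
  have h7 : p ∣ 2 * 3 := h6
  rcases (Nat.Prime.dvd_mul hp).mp h7 with h8 | h8
  · have := Nat.le_of_dvd (by norm_num) h8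
    omega
  · have := Nat.le_of_dvd (by norm_num) h8
    omega

/-- **The extension property fails for `d = s = 3` and every prime `p ≥ 5`.** -/
theorem result (p : ℕ) [Fact p.Prime] (hp5 : 5 ≤ p) : ¬ ExtensionProperty 3 3 p := by
  intro h
  have hred : ∀ (x : Fin 3 → ZMod p) (k : Fin 3 → ℤ),
      (fun i => (((tau x + (p : ℤ) • k) i : ℤ) : ZMod p)) = x := by
    intro x k
    ext i
    simp [tau]
  have hmem : seq (p : ℝ)⁻¹ ∘ tau ∈ polyP p (zeroSet (mat p) 0 0) filt lattice := by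
    refine ⟨seq (p : ℝ)⁻¹, seq_poly _, ?_, rfl⟩
    intro x hx k m
    apply seq_per hp5
    rw [hred]
    exact hx
  obtain ⟨g', ⟨f, hf, hper, rfl⟩, hagree⟩ := h (mat p) 0 0 (mat_symm p) (mat_rank hp5) V5 Heis
    lattice filt isFilteredNilmanifold _ hmem
  have hper' : ∀ N m : Fin 3 → ℤ, (f (N + (p : ℤ) • m))⁻¹ * f N ∈ lattice := by
    intro N m
    obtain ⟨k, hk⟩ := exists_rep p N
    rw [hk]
    exact hper _ (Set.mem_univ _) k m
  refine no_extension hp5 Fact.out hf hper' ?_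
  intro N hN
  obtain ⟨k, hk⟩ := exists_rep p N
  obtain ⟨x, hx⟩ : ∃ x : Fin 3 → ZMod p, x = fun i => (N i : ZMod p) := ⟨_, rfl⟩
  rw [← hx] at hk
  have hxV : x ∈ zeroSet (mat p) 0 0 := by
    rw [mem_zeroSet_iff hp5, hx]
    have := congrArg (Int.cast : ℤ → ZMod p) hN
    push_cast at this
    exact this
  have h1 := hagree x hxV
  rw [QuotientGroup.eq] at h1
  have h2 := hper' (tau x) k
  have h3 : (seq (p : ℝ)⁻¹ (tau x + (p : ℤ) • k))⁻¹ * seq (p : ℝ)⁻¹ (tau x) ∈ lattice := by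
    apply seq_per hp5
    have := hred x 0
    rw [smul_zero, add_zero] at this
    rw [this]
    exact hxV
  rw [← hk] at h2 h3
  have h4 : (seq (p : ℝ)⁻¹ N)⁻¹ * f N ∈ lattice := by
    have := mul_mem (mul_mem h3 h1) (inv_mem h2)
    simp only [Function.comp_apply] at this
    convert! this using 1
    group
  rw [mem_lattice_iff] at h4
  obtain ⟨g1, _, g3, g4, _⟩ := h4
  refine ⟨?_, ?_, ?_⟩
  · convert! g1 using 1
    simp only [mul_a₁, inv_a₁, seq, mk_a₁]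
    ring
  · convert! g3 using 1
    simp only [mul_b₁, inv_b₁, seq, mk_b₁]
    ring
  · convert! g4 using 1
    simp only [mul_b₂, inv_b₂, seq, mk_b₂]
    ring

end Pool.Agent.Results.MP_7624a3_nt.NoExtension
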